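import Pool.Agent.H472.VP.Main

/-! # Vinogradov's system in `k + 1` pairs of variables: `N^{k^{o(1)}}` non-diagonal solutions -/

set_option autoImplicit false

namespace Pool.Agent.Results.MP_e21eee_nt.PaucitySubpolynomial

open scoped Classical in
/-- The number of non-diagonal solutions in `[1,N]` of Vinogradov's system of degree `k` in `k + 1` pairs of
variables: the pairs of `(k+1)`-tuples with equal `j`-th power sums for `j = 1, ..., k` which are not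
permutations of each other. -/
noncomputable def nondiagonal (k N : ℕ) : ℕ :=
  (((Fintype.piFinset fun _ : Fin (k + 1) => Finset.Icc 1 N) ×ˢ
      (Fintype.piFinset fun _ : Fin (k + 1) => Finset.Icc 1 N)).filter
      (fun p : (Fin (k + 1) → ℕ) × (Fin (k + 1) → ℕ) =>
        (∀ j : Fin k, ∑ i : Fin (k + 1), p.1 i ^ (j.val + 1) =
          ∑ i : Fin (k + 1), p.2 i ^ (j.val + 1)) ∧
        ¬ ∃ σ : Equiv.Perm (Fin (k + 1)), p.2 = p.1 ∘ σ)).card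

/-- The number of non-diagonal solutions in `[1,N]` of Vinogradov's system of degree `k ≥ 1` in `k + 1` pairs of
variables is
1. `O(N^{exp(40 √(log(k+1)))})`;
2. `O(N^{k^δ})` for every `δ > 0` and all `k ≥ k₀(δ)`;
3. `O(N^{4^J (10^4 J (k+1)^{1/J} + 10^6 log(k+1))})` for every integer `J ≥ 1`. -/
theorem result :
    (∀ k : ℕ, 1 ≤ k → ∃ C : ℝ, ∀ N : ℕ, 1 ≤ N →
      (nondiagonal k N : ℝ) ≤ C * (N : ℝ) ^ Real.exp (40 * Real.sqrt (Real.log (k + 1)))) ∧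
    (∀ δ : ℝ, 0 < δ → ∃ k₀ : ℕ, ∀ k : ℕ, k₀ ≤ k → ∃ C : ℝ, ∀ N : ℕ, 1 ≤ N →
      (nondiagonal k N : ℝ) ≤ C * (N : ℝ) ^ ((k : ℝ) ^ δ)) ∧
    (∀ k : ℕ, 1 ≤ k → ∀ J : ℕ, 1 ≤ J → ∃ C : ℝ, ∀ N : ℕ, 1 ≤ N →
      (nondiagonal k N : ℝ) ≤ C * (N : ℝ) ^
        ((4 : ℝ) ^ J * (10 ^ 4 * J * ((k : ℝ) + 1) ^ ((1 : ℝ) / J) + 10 ^ 6 * Real.log (k + 1)))) := by
  have key : ∀ k N : ℕ, nondiagonal k N = (Pool.Agent.W89.VP.VN (k + 1) k N).card := by
    intro k N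
    rw [Pool.Agent.W89.VP.VN, Pool.Agent.W89.VP.VS, Finset.filter_filter]
    rfl
  obtain ⟨hA, hB, hC⟩ := Pool.Agent.H472.VP.final Pool.Agent.H472.VP.main14
    Pool.Agent.H472.VP.pf_S15 Pool.Agent.H472.VP.pf_S16
  simp only [key]
  exact ⟨hB, hC, hA⟩

end Pool.Agent.Results.MP_e21eee_nt.PaucitySubpolynomial
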